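import Mathlib

set_option autoImplicit false

namespace Pool.Agent.Results.MP_7876a1_co.SeventeenSimplices

/-- Euclidean `d`-space. -/
abbrev E (d : ℕ) := EuclideanSpace ℝ (Fin d)

/-- `S` is a `d`-simplex in `ℝ^d`: the convex hull of `d + 1` affinely independent points. -/
def IsSimplex {d : ℕ} (S : Set (E d)) : Prop :=
  ∃ p : Fin (d + 1) → E d, AffineIndependent ℝ p ∧ S = convexHull ℝ (Set.range p)

/-- `S` and `T` abut along a `(d-1)`-dimensional region: their interiors are disjoint, they meet,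
and the affine span of `S ∩ T` has dimension `d - 1`. -/
def Abut {d : ℕ} (S T : Set (E d)) : Prop :=
  Disjoint (interior S) (interior T) ∧ (S ∩ T).Nonempty ∧
    Module.finrank ℝ (affineSpan ℝ (S ∩ T)).direction + 1 = d

/-- A neighborly family of `m` `d`-simplices in `ℝ^d`. -/
def Neighborly {d m : ℕ} (S : Fin m → Set (E d)) : Prop :=
  (∀ i, IsSimplex (S i)) ∧ ∀ i j, i ≠ j → Abut (S i) (S j)

/-- the affine function `x ↦ a · x + b` -/
def ev {d : ℕ} (a : Fin d → ℝ) (b : ℝ) (x : E d) : ℝ := ∑ k, a k * x k + b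

/-- the linear function `x ↦ a · x` -/
def lin {d : ℕ} (a : Fin d → ℝ) : E d →ₗ[ℝ] ℝ where
  toFun x := ∑ k, a k * x k
  map_add' x y := by
    rw [← Finset.sum_add_distrib]
    exact Finset.sum_congr rfl fun k _ => by simp only [PiLp.add_apply]; ring
  map_smul' c x := by
    rw [RingHom.id_apply, smul_eq_mul, Finset.mul_sum]
    exact Finset.sum_congr rfl fun k _ => by simp only [PiLp.smul_apply, smul_eq_mul]; ring

lemma ev_eq {d : ℕ} (a : Fin d → ℝ) (b : ℝ) (x : E d) : ev a b x = lin a x + b := rfl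

lemma ev_add {d : ℕ} (a : Fin d → ℝ) (b : ℝ) (x v : E d) (t : ℝ) :
    ev a b (x + t • v) = ev a b x + t * lin a v := by
  rw [ev_eq, ev_eq, map_add, map_smul, smul_eq_mul]
  ring

lemma ev_cont {d : ℕ} (a : Fin d → ℝ) (b : ℝ) : Continuous (ev a b) := by
  unfold ev
  fun_prop

lemma ev_comb {d n : ℕ} (a : Fin d → ℝ) (b : ℝ) (w : Fin n → ℝ) (p : Fin n → E d) :
    ∑ i, w i * ev a b (p i) = lin a (∑ i, w i • p i) + (∑ i, w i) * b := by
  rw [map_sum, Finset.sum_mul, ← Finset.sum_add_distrib]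
  exact Finset.sum_congr rfl fun i _ => by rw [map_smul, smul_eq_mul, ev_eq]; ring

section Facets
variable {d : ℕ} (p : Fin (d + 1) → E d) (a : Fin (d + 1) → Fin d → ℝ) (b : Fin (d + 1) → ℝ)

/-- `a, b` are the facet inequalities of the simplex with vertices `p` -/
structure Facets : Prop where
  zero : ∀ r q, r ≠ q → ev (a r) (b r) (p q) = 0
  pos : ∀ r, 0 < ev (a r) (b r) (p r)

variable {p a b}

lemma Facets.sum_eq (h : Facets p a b) (w : Fin (d + 1) → ℝ) (r : Fin (d + 1)) :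
    ∑ q, w q * ev (a r) (b r) (p q) = w r * ev (a r) (b r) (p r) := by
  refine Finset.sum_eq_single r (fun q _ hq => ?_) (fun hr => absurd (Finset.mem_univ r) hr)
  rw [h.zero r q (Ne.symm hq), mul_zero]

lemma Facets.affineIndependent (h : Facets p a b) : AffineIndependent ℝ p := by
  rw [affineIndependent_iff_of_fintype]
  intro w hw hsum r
  rw [Finset.weightedVSub_eq_linear_combination _ hw] at hsum
  have h1 := h.sum_eq w r
  rw [ev_comb, hsum, hw, map_zero, zero_mul, zero_add] at h1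
  exact (mul_eq_zero.1 h1.symm).resolve_right (h.pos r).ne'

lemma Facets.hull_eq (h : Facets p a b) :
    convexHull ℝ (Set.range p) = {x | ∀ r, 0 ≤ ev (a r) (b r) x} := by
  apply Set.Subset.antisymm
  · apply convexHull_min
    · rintro _ ⟨q, rfl⟩ r
      by_cases hrq : r = q
      · subst hrq
        exact (h.pos r).le
      · exact (h.zero r q hrq).ge
    · intro x hx y hy s t hs ht hst r
      have h1 : ev (a r) (b r) (s • x + t • y) = s * ev (a r) (b r) x + t * ev (a r) (b r) y := by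
        have hb : b r = s * b r + t * b r := by rw [← add_mul, hst, one_mul]
        rw [ev_eq, ev_eq, ev_eq, map_add, map_smul, map_smul, smul_eq_mul, smul_eq_mul]
        linear_combination hb
      rw [h1]
      exact add_nonneg (mul_nonneg hs (hx r)) (mul_nonneg ht (hy r))
  · intro x hx
    have hspan : affineSpan ℝ (Set.range p) = ⊤ := by
      rw [h.affineIndependent.affineSpan_eq_top_iff_card_eq_finrank_add_one]
      simp
    have hxm : x ∈ affineSpan ℝ (Set.range p) := by rw [hspan]; trivial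
    obtain ⟨w, hw, hxw⟩ := eq_affineCombination_of_mem_affineSpan_of_fintype hxm
    rw [Finset.affineCombination_eq_linear_combination _ _ _ hw] at hxw
    refine mem_convexHull_of_exists_fintype w p (fun r => ?_) hw (fun i => ⟨i, rfl⟩) hxw.symm
    have h1 := h.sum_eq w r
    rw [ev_comb, ← hxw, hw, one_mul, ← ev_eq] at h1
    have h2 := hx r
    rw [h1] at h2
    exact nonneg_of_mul_nonneg_left h2 (h.pos r)

end Facets

/-- a point of the interior of a set on which `ev a b` is nonnegative has a positive value -/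
lemma pos_of_interior {d : ℕ} {S : Set (E d)} {a : Fin d → ℝ} {b : ℝ} (ha : ∃ v, lin a v ≠ 0)
    (hS : ∀ x ∈ S, 0 ≤ ev a b x) {x : E d} (hx : x ∈ interior S) : 0 < ev a b x := by
  obtain ⟨v, hv⟩ := ha
  have hnn : 0 ≤ ev a b x := hS x (interior_subset hx)
  refine lt_of_le_of_ne hnn fun h0 => ?_
  have hc : Continuous fun t : ℝ => x + t • v := by fun_prop
  have h1 : ∀ᶠ t in nhds (0 : ℝ), x + t • v ∈ S := by
    have : (fun t : ℝ => x + t • v) ⁻¹' (interior S) ∈ nhds (0 : ℝ) :=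
      (isOpen_interior.preimage hc).mem_nhds (by simpa using hx)
    exact Filter.mem_of_superset this fun t (ht : x + t • v ∈ interior S) =>
      (interior_subset ht : x + t • v ∈ S)
  obtain ⟨ε, hε, hball⟩ := Metric.eventually_nhds_iff.1 h1
  have e1 : x + (ε / 2) • v ∈ S :=
    hball (by rw [Real.dist_eq, sub_zero, abs_of_pos (by positivity)]; linarith)
  have e2 : x + (-(ε / 2)) • v ∈ S :=
    hball (by rw [Real.dist_eq, sub_zero, abs_neg, abs_of_pos (by positivity)]; linarith)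
  have f1 := hS _ e1
  have f2 := hS _ e2
  rw [ev_add, ← h0] at f1 f2
  have hε2 : 0 < ε / 2 := by positivity
  rcases lt_or_gt_of_ne hv with hlt | hgt
  · nlinarith
  · nlinarith

lemma abut_of_data {d : ℕ} {p p' : Fin (d + 1) → E d} {a a' : Fin (d + 1) → Fin d → ℝ}
    {b b' : Fin (d + 1) → ℝ} (h : Facets p a b) (h' : Facets p' a' b') (hd : 0 < d)
    (r r' : Fin (d + 1)) (ha : a' r' = -a r) (hb : b' r' = -b r) (c : E d)
    (hc : ev (a r) (b r) c = 0) (h1 : ∀ q, q ≠ r → 0 < ev (a q) (b q) c)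
    (h2 : ∀ q, q ≠ r' → 0 < ev (a' q) (b' q) c) :
    Abut (convexHull ℝ (Set.range p)) (convexHull ℝ (Set.range p')) := by
  rw [h.hull_eq, h'.hull_eq]
  set S : Set (E d) := {x | ∀ r, 0 ≤ ev (a r) (b r) x} with hS
  set T : Set (E d) := {x | ∀ r, 0 ≤ ev (a' r) (b' r) x} with hT
  have hneg : ∀ x, ev (a' r') (b' r') x = - ev (a r) (b r) x := by
    intro x
    rw [ha, hb, ev, ev, neg_add, ← Finset.sum_neg_distrib]
    congr 1
    exact Finset.sum_congr rfl fun k _ => by rw [Pi.neg_apply]; ring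
  obtain ⟨q, hq⟩ : ∃ q, q ≠ r := by
    have : Nontrivial (Fin (d + 1)) := Fin.nontrivial_iff_two_le.2 (by omega)
    exact exists_ne r
  have hlin : lin (a r) (p r - p q) ≠ 0 := by
    have e1 := h.pos r
    have e2 := h.zero r q (Ne.symm hq)
    rw [ev_eq] at e1 e2
    rw [map_sub]
    intro h0
    linarith
  have hlin' : ∃ v, lin (a r) v ≠ 0 := ⟨_, hlin⟩
  refine ⟨?_, ?_, ?_⟩
  · rw [Set.disjoint_left]
    intro x hx hx'
    have e1 := pos_of_interior hlin' (fun y (hy : y ∈ S) => hy r) hx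
    have e2 : 0 ≤ ev (a' r') (b' r') x := (interior_subset hx' : x ∈ T) r'
    rw [hneg] at e2
    linarith
  · refine ⟨c, fun q => ?_, fun q => ?_⟩
    · by_cases hqr : q = r
      · rw [hqr, hc]
      · exact (h1 q hqr).le
    · by_cases hqr : q = r'
      · rw [hqr, hneg, hc, neg_zero]
      · exact (h2 q hqr).le
  · have hker : (affineSpan ℝ (S ∩ T)).direction = LinearMap.ker (lin (a r)) := by
      rw [direction_affineSpan]
      apply le_antisymm
      · rw [vectorSpan_def, Submodule.span_le]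
        rintro _ ⟨x, hx, y, hy, rfl⟩
        have key : ∀ z ∈ S ∩ T, ev (a r) (b r) z = 0 := by
          intro z hz
          have e1 : 0 ≤ ev (a r) (b r) z := hz.1 r
          have e2 : 0 ≤ ev (a' r') (b' r') z := hz.2 r'
          rw [hneg] at e2
          linarith
        have e1 := key x hx
        have e2 := key y hy
        rw [ev_eq] at e1 e2
        simp only [vsub_eq_sub, SetLike.mem_coe, LinearMap.mem_ker, map_sub]
        linarith
      · intro v hv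
        rw [LinearMap.mem_ker] at hv
        have hev : ∀ᶠ t in nhds (0 : ℝ), (∀ q, q ≠ r → 0 < ev (a q) (b q) (c + t • v)) ∧
            (∀ q, q ≠ r' → 0 < ev (a' q) (b' q) (c + t • v)) := by
          have gen : ∀ (α : Fin d → ℝ) (β : ℝ), 0 < ev α β c →
              ∀ᶠ t in nhds (0 : ℝ), 0 < ev α β (c + t • v) := by
            intro α β hpos
            have hcont : Continuous fun t : ℝ => ev α β (c + t • v) :=
              (ev_cont α β).comp (by fun_prop)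
            exact (isOpen_lt continuous_const hcont).mem_nhds (by simpa using hpos)
          refine Filter.Eventually.and ?_ ?_
          · rw [Filter.eventually_all]
            intro q
            by_cases hqr : q = r
            · exact Filter.Eventually.of_forall fun t hne => absurd hqr hne
            · exact (gen _ _ (h1 q hqr)).mono fun t ht _ => ht
          · rw [Filter.eventually_all]
            intro q
            by_cases hqr : q = r'
            · exact Filter.Eventually.of_forall fun t hne => absurd hqr hne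
            · exact (gen _ _ (h2 q hqr)).mono fun t ht _ => ht
        obtain ⟨ε, hε, hball⟩ := Metric.eventually_nhds_iff.1 hev
        have mem : ∀ t : ℝ, |t| < ε → c + t • v ∈ S ∩ T := by
          intro t ht
          obtain ⟨g1, g2⟩ := hball (y := t) (by rwa [Real.dist_eq, sub_zero])
          have g0 : ev (a r) (b r) (c + t • v) = 0 := by rw [ev_add, hc, hv, mul_zero, add_zero]
          refine ⟨fun q => ?_, fun q => ?_⟩
          · by_cases hqr : q = r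
            · rw [hqr, g0]
            · exact (g1 q hqr).le
          · by_cases hqr : q = r'
            · rw [hqr, hneg, g0, neg_zero]
            · exact (g2 q hqr).le
        have m0 : c ∈ S ∩ T := by simpa using mem 0 (by simpa using hε)
        have hε2 : 0 < ε / 2 := by positivity
        have m1 := mem (ε / 2) (by rw [abs_of_pos hε2]; linarith)
        have m2 := vsub_mem_vectorSpan ℝ m1 m0
        rw [vsub_eq_sub, add_sub_cancel_left] at m2
        have m3 := Submodule.smul_mem _ (ε / 2)⁻¹ m2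
        rwa [smul_smul, inv_mul_cancel₀ hε2.ne', one_smul] at m3
    rw [hker]
    have hrange : LinearMap.range (lin (a r)) = ⊤ := by
      rw [LinearMap.range_eq_top]
      exact LinearMap.surjective_of_ne_zero fun h0 => hlin (by rw [h0]; rfl)
    have hsum := LinearMap.finrank_range_add_finrank_ker (lin (a r))
    rw [hrange, finrank_top, Module.finrank_self, finrank_euclideanSpace_fin] at hsum
    omega

lemma Abut.symm {d : ℕ} {S T : Set (E d)} (h : Abut S T) : Abut T S :=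
  ⟨h.1.symm, by rw [Set.inter_comm]; exact h.2.1, by rw [Set.inter_comm]; exact h.2.2⟩

def P : Fin 23 → Fin 5 → ℤ :=
  ![![0, 0, 0, 1, 0],
    ![4, 6, -4, -7, 2],
    ![-1, 6, -1, 8, -8],
    ![3, -7, 1, -8, 8],
    ![0, 6, -1, -1, 4],
    ![-5, 2, -2, -4, 7],
    ![-3, -5, 3, -5, 1],
    ![7, -5, 1, -1, 0],
    ![-2, -8, 3, 3, -4],
    ![6, 2, 1, -2, 1],
    ![4, 5, -3, 7, -6],
    ![4, -8, 1, -3, 0],
    ![-1, 0, 3, 8, 8],
    ![-2, 0, 5, 10, 9],
    ![-1, 1, 1, 11, 10],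
    ![-2, -2, 5, -1, 6],
    ![2, -2, 8, 1, 4],
    ![-6, 1, 8, 2, 5],
    ![-1, 2, 2, 8, 0],
    ![-4, -1, 7, -5, 0],
    ![-3, 1, 5, -8, -4],
    ![-1, 0, 3, -8, -6],
    ![-1, 1, 2, -3, -8]]
def G : Fin 17 → Fin 5 → Fin 23 :=
  ![![0, 5, 8, 9, 11],
    ![0, 4, 8, 9, 11],
    ![0, 2, 7, 10, 11],
    ![0, 1, 6, 8, 11],
    ![0, 4, 5, 6, 10],
    ![0, 2, 3, 10, 11],
    ![0, 1, 5, 8, 11],
    ![0, 2, 4, 7, 11],
    ![0, 5, 7, 10, 11],
    ![0, 12, 13, 16, 18],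
    ![0, 13, 15, 16, 18],
    ![0, 13, 15, 16, 19],
    ![0, 14, 16, 17, 18],
    ![0, 16, 17, 19, 20],
    ![0, 18, 19, 20, 21],
    ![0, 16, 17, 20, 21],
    ![0, 18, 19, 21, 22]]
def Sg : Fin 17 → Fin 5 → ℤ :=
  ![![1, 1, 1, 1, 1],
    ![1, 1, 1, -1, 1],
    ![1, -1, 1, 1, -1],
    ![1, 1, 1, -1, 1],
    ![1, -1, -1, -1, -1],
    ![1, 1, 1, 1, -1],
    ![1, -1, 1, -1, 1],
    ![1, -1, 1, -1, -1],
    ![1, 1, 1, -1, -1],
    ![-1, 1, -1, -1, -1],
    ![-1, 1, -1, -1, -1],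
    ![-1, 1, 1, -1, -1],
    ![-1, 1, 1, -1, -1],
    ![-1, 1, 1, -1, -1],
    ![-1, 1, 1, -1, -1],
    ![-1, 1, 1, 1, -1],
    ![-1, 1, 1, 1, -1]]
def V : Fin 17 → Fin 5 → Fin 5 → ℤ :=
  ![![![196, -139, -216, 560, 438], ![-28, -3, 88, 0, 86], ![-84, 11, 424, 0, 58], ![28, 43, 232, 0, 74], ![84, -131, -264, 0, 22]],
    ![![8, -4, -13, 17, 7], ![-28, -3, 88, 0, 86], ![-21, 2, 100, 0, 22], ![-14, -10, -24, 0, 9], ![7, -29, -22, 0, 38]],
    ![![-142, -358, -46, 750, 505], ![6, -6, -72, 0, 35], ![28, 22, 64, 0, 5], ![8, -8, -96, 0, 5], ![86, 164, 218, 0, 85]],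
    ![![-346, -299, -804, 68, 219], ![-46, -37, -112, 0, 13], ![-18, -13, -32, 0, 11], ![32, 25, 72, 0, 5], ![20, 5, 28, 0, 1]],
    ![![-148, 34, 193, 179, 42], ![10, -41, -59, 0, 2], ![65, 2, 64, 0, 13], ![167, -94, -144, 0, 105], ![117, -68, -28, 0, 95]],
    ![![-23, -46, -21, 85, 56], ![146, 122, 392, 0, 3], ![28, 22, 64, 0, 5], ![-8, -16, -96, 0, 1], ![18, 36, 46, 0, 19]],
    ![![32, -273, -1082, 410, 26], ![28, 43, 232, 0, 74], ![-18, -13, -32, 0, 11], ![77, 67, 228, 0, 101], ![47, -23, 38, 0, 51]],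
    ![![-6, -62, -166, 102, 77], ![-2, 2, 24, 0, 3], ![8, -8, -96, 0, 5], ![-12, -22, -128, 0, 1], ![-12, 80, 484, 0, 1]],
    ![![-212, -482, 115, 1041, 614], ![6, -6, -72, 0, 35], ![217, 130, 172, 0, 167], ![-7, 7, 84, 0, 17], ![118, 229, 319, 0, 110]],
    ![![-6, 535, 94, -158, 122], ![70, 52, -17, 0, 25], ![68, 46, -12, 0, 13], ![-26, 1, -14, 0, 2], ![-13, -39, -7, 0, 1]],
    ![![254, 1411, 148, -358, 372], ![32, 34, -18, 0, 37], ![70, 52, -17, 0, 25], ![-66, -3, -30, 0, 2], ![37, -39, -32, 0, 26]],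
    ![![185, 846, 68, -222, 250], ![0, 14, 2, 0, 3], ![-37, -195, -49, 0, 19], ![-37, -6, -22, 0, 4], ![37, -39, -32, 0, 26]],
    ![![656, 1779, 173, -406, 317], ![22, 38, -27, 0, 62], ![20, -5, 15, 0, 1], ![100, 62, -12, 0, 5], ![-109, -299, -60, 0, 25]],
    ![![74, 165, -127, -270, 367], ![8, 3, 5, 0, 1], ![-4, 30, 2, 0, 13], ![29, 75, 8, 0, 7], ![-1, -3, -1, 0, 1]],
    ![![616, 242, 338, -68, 157], ![60, 26, 38, 0, 9], ![24, -10, 22, 0, 7], ![96, -6, 54, 0, 11], ![-16, 1, -9, 0, 1]],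
    ![![-243, -656, -221, -282, 306], ![15, 8, 9, 0, 2], ![-48, -82, -10, 0, 3], ![93, 247, 37, 0, 3], ![29, 75, 8, 0, 7]],
    ![![-158, 179, -94, -41, 34], ![15, 17, 11, 0, 3], ![-36, -8, -10, 0, 1], ![128, -8, 72, 0, 1], ![96, -6, 54, 0, 11]]]
def CP : Fin 17 → Fin 17 → Fin 5 → ℤ :=
  ![![fun _ => 0, ![0, -1, 2, 2, 4], ![2, -1, 2, 6, 6], ![6, -9, -9, 1, 9], ![2, -2, -2, 1, 2], ![29, -20, -24, 84, 68], ![3, -2, 0, 2, 4], ![-3, 0, 15, 1, 6], ![0, 0, 6, 2, 3], ![1, -2, -2, 0, 1], ![4, -8, -9, 0, 6], ![2, -4, -4, 0, 3], ![1, -2, -1, 0, 2], ![1, -2, 0, 0, 2], ![1, -1, 2, 0, 2], ![0, -1, 2, 0, 2], ![0, 0, 3, 0, 1]],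
    ![fun _ => 0, fun _ => 0, ![0, -3, -3, 7, 6], ![3, -18, -15, 1, 24], ![3, -5, 12, 18, 15], ![1, -1, 0, 4, 3], ![0, -1, -1, 1, 2], ![-1, -1, -1, 1, 2], ![0, -1, 4, 4, 4], ![-21, -15, -35, 0, 14], ![-7, -5, -11, 0, 5], ![-3, -2, -3, 0, 3], ![0, -6, -5, 0, 8], ![0, -2, -1, 0, 3], ![-1, -1, 1, 0, 2], ![-2, -1, 1, 0, 2], ![-2, -1, 8, 0, 4]],
    ![fun _ => 0, fun _ => 0, fun _ => 0, ![135, 105, 303, 1, 27], ![0, -11, 15, 40, 30], ![2, 2, 2, 1, 2], ![0, -5, -16, 8, 8], ![0, -2, -5, 5, 5], ![1, 0, -2, 2, 4], ![2, 1, -3, 0, 2], ![1, 1, -1, 0, 1], ![2, 1, -2, 0, 3], ![2, 1, -1, 0, 2], ![2, 2, 1, 0, 2], ![2, 3, 2, 0, 2], ![2, 3, 3, 0, 2], ![2, 2, 3, 0, 1]],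
    ![fun _ => 0, fun _ => 0, fun _ => 0, fun _ => 0, ![20, -5, 10, 1, 10], ![231, 180, 519, 1, 42], ![0, -7, -7, 2, 14], ![-3, -3, -9, 1, 9], ![0, 0, 3, 1, 12], ![-2, -2, -5, 0, 2], ![0, -3, -5, 0, 3], ![0, -1, -2, 0, 2], ![1, -1, -1, 0, 2], ![1, -1, 0, 0, 2], ![1, 0, 1, 0, 1], ![2, 1, 4, 0, 2], ![4, 1, 6, 0, 2]],
    ![fun _ => 0, fun _ => 0, fun _ => 0, fun _ => 0, fun _ => 0, ![7, -7, 35, 40, 28], ![31, -25, -20, 20, 35], ![-4, -5, 24, 26, 20], ![-2, -5, 5, 15, 10], ![3, -3, -3, 0, 2], ![9, -6, -7, 0, 6], ![57, -54, -49, 0, 42], ![3, -2, -1, 0, 1], ![24, -4, 13, 0, 9], ![11, -1, 8, 0, 3], ![23, -1, 19, 0, 6], ![22, -1, 18, 0, 5]],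
    ![fun _ => 0, fun _ => 0, fun _ => 0, fun _ => 0, fun _ => 0, fun _ => 0, ![3, -3, -12, 8, 6], ![0, -1, -6, 1, 1], ![3, 3, 13, 12, 12], ![3, 2, -1, 0, 1], ![3, 3, -2, 0, 2], ![36, 70, -17, 0, 50], ![6, 3, -1, 0, 1], ![2, 2, 1, 0, 1], ![4, 4, 3, 0, 2], ![4, 3, 3, 0, 1], ![4, 3, 4, 0, 1]],
    ![fun _ => 0, fun _ => 0, fun _ => 0, fun _ => 0, fun _ => 0, fun _ => 0, fun _ => 0, ![-3, -3, -6, 2, 6], ![1, 0, 2, 2, 4], ![-18, -13, -31, 0, 12], ![-14, -10, -23, 0, 10], ![-2, -2, -3, 0, 3], ![-2, -16, -14, 0, 23], ![-1, -2, -1, 0, 4], ![0, 0, 2, 0, 3], ![0, 0, 1, 0, 1], ![1, 1, 5, 0, 2]],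
    ![fun _ => 0, fun _ => 0, fun _ => 0, fun _ => 0, fun _ => 0, fun _ => 0, fun _ => 0, fun _ => 0, ![0, 0, 1, 1, 1], ![-2, 0, -3, 0, 1], ![-1, 0, -2, 0, 1], ![-1, 0, -1, 0, 1], ![3, 4, -3, 0, 7], ![0, 1, 0, 0, 1], ![-1, 0, 0, 0, 1], ![-1, 0, 1, 0, 1], ![-1, 0, 2, 0, 1]],
    ![fun _ => 0, fun _ => 0, fun _ => 0, fun _ => 0, fun _ => 0, fun _ => 0, fun _ => 0, fun _ => 0, fun _ => 0, ![2, -1, -18, 0, 10], ![1, 0, -5, 0, 4], ![2, 1, -3, 0, 4], ![2, 1, -1, 0, 3], ![1, 1, 0, 0, 2], ![1, 1, 1, 0, 2], ![1, 1, 3, 0, 2], ![0, 1, 6, 0, 2]],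
    ![fun _ => 0, fun _ => 0, fun _ => 0, fun _ => 0, fun _ => 0, fun _ => 0, fun _ => 0, fun _ => 0, fun _ => 0, fun _ => 0, ![-6, 4, -4, -1, 2], ![0, 0, -5, -2, 5], ![4, 3, -2, -2, 4], ![6, 15, -6, -14, 20], ![-328, 32, -184, -3, 32], ![2, 7, -2, -6, 8], ![2, 16, 1, -4, 4]],
    ![fun _ => 0, fun _ => 0, fun _ => 0, fun _ => 0, fun _ => 0, fun _ => 0, fun _ => 0, fun _ => 0, fun _ => 0, fun _ => 0, fun _ => 0, ![0, 4, -1, -1, 2], ![16, 24, -5, -8, 16], ![40, 104, -5, -24, 48], ![-64, 8, -36, -1, 8], ![3, 8, 0, -2, 3], ![0, 28, 0, -7, 8]],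
    ![fun _ => 0, fun _ => 0, fun _ => 0, fun _ => 0, fun _ => 0, fun _ => 0, fun _ => 0, fun _ => 0, fun _ => 0, fun _ => 0, fun _ => 0, fun _ => 0, ![1, 0, -2, -2, 4], ![0, 8, -5, -8, 16], ![-20, 15, -10, -1, 10], ![1, 8, 0, -2, 4], ![9, 52, 4, -12, 16]],
    ![fun _ => 0, fun _ => 0, fun _ => 0, fun _ => 0, fun _ => 0, fun _ => 0, fun _ => 0, fun _ => 0, fun _ => 0, fun _ => 0, fun _ => 0, fun _ => 0, fun _ => 0, ![2, 4, 0, -1, 2], ![40, 0, 24, -1, 8], ![4, 10, 0, -3, 4], ![16, 2, 10, -1, 2]],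
    ![fun _ => 0, fun _ => 0, fun _ => 0, fun _ => 0, fun _ => 0, fun _ => 0, fun _ => 0, fun _ => 0, fun _ => 0, fun _ => 0, fun _ => 0, fun _ => 0, fun _ => 0, fun _ => 0, ![0, 5, 0, -1, 5], ![8, 12, 4, -1, 4], ![65, 25, 40, -1, 10]],
    ![fun _ => 0, fun _ => 0, fun _ => 0, fun _ => 0, fun _ => 0, fun _ => 0, fun _ => 0, fun _ => 0, fun _ => 0, fun _ => 0, fun _ => 0, fun _ => 0, fun _ => 0, fun _ => 0, fun _ => 0, ![12, 4, 8, -1, 4], ![20, 4, 12, -1, 4]],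
    ![fun _ => 0, fun _ => 0, fun _ => 0, fun _ => 0, fun _ => 0, fun _ => 0, fun _ => 0, fun _ => 0, fun _ => 0, fun _ => 0, fun _ => 0, fun _ => 0, fun _ => 0, fun _ => 0, fun _ => 0, fun _ => 0, ![2, 4, 2, -1, 2]],
    ![fun _ => 0, fun _ => 0, fun _ => 0, fun _ => 0, fun _ => 0, fun _ => 0, fun _ => 0, fun _ => 0, fun _ => 0, fun _ => 0, fun _ => 0, fun _ => 0, fun _ => 0, fun _ => 0, fun _ => 0, fun _ => 0, fun _ => 0]]

/-- integer facet function number `r` of simplex `i`; the last coordinate is the constant term -/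
def A (i : Fin 17) (r : Fin 5) (k : Fin 5) : ℤ := Sg i r * P (G i r) k

/-- integer dot product -/
def idot (x y : Fin 5 → ℤ) : ℤ := x 0 * y 0 + x 1 * y 1 + x 2 * y 2 + x 3 * y 3 + x 4 * y 4

lemma check_facets : ∀ i : Fin 17, ∀ r q : Fin 5, 0 < V i q 4 ∧
    (r ≠ q → idot (A i r) (V i q) = 0) ∧ 0 < idot (A i r) (V i r) := by
  decide +kernel

lemma check_pairs : ∀ i j : Fin 17, i < j → 0 < CP i j 4 ∧ ∃ r r' : Fin 5,
    (∀ k, A j r' k = -A i r k) ∧ idot (A i r) (CP i j) = 0 ∧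
    (∀ q, q ≠ r → 0 < idot (A i q) (CP i j)) ∧ (∀ q, q ≠ r' → 0 < idot (A j q) (CP i j)) := by
  decide +kernel

/-- real point with homogeneous integer coordinates `v` -/
noncomputable def pt (v : Fin 5 → ℤ) : E 4 :=
  WithLp.toLp 2 fun k : Fin 4 => (v (Fin.castSucc k) : ℝ) / (v 4 : ℝ)

/-- normal vector of an integer affine function -/
def nor (u : Fin 5 → ℤ) : Fin 4 → ℝ := fun k => (u (Fin.castSucc k) : ℝ)

lemma ev_pt (u v : Fin 5 → ℤ) (hv : 0 < v 4) :
    ev (nor u) (u 4 : ℝ) (pt v) = (idot u v : ℝ) / (v 4 : ℝ) := by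
  have hv' : (v 4 : ℝ) ≠ 0 := by exact_mod_cast hv.ne'
  rw [eq_div_iff hv', ev, Fin.sum_univ_four]
  simp only [nor, pt, idot]
  push_cast
  change ((u 0 : ℝ) * ((v 0 : ℝ) / (v 4 : ℝ)) + (u 1 : ℝ) * ((v 1 : ℝ) / (v 4 : ℝ)) +
    (u 2 : ℝ) * ((v 2 : ℝ) / (v 4 : ℝ)) + (u 3 : ℝ) * ((v 3 : ℝ) / (v 4 : ℝ)) + (u 4 : ℝ)) *
    (v 4 : ℝ) = _
  field_simp

/-- the vertices of simplex `i` -/
noncomputable def vert (i : Fin 17) (q : Fin 5) : E 4 := pt (V i q)

lemma facets (i : Fin 17) :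
    Facets (vert i) (fun r => nor (A i r)) (fun r => ((A i r 4 : ℤ) : ℝ)) := by
  constructor
  · intro r q hrq
    obtain ⟨h1, h2, -⟩ := check_facets i r q
    rw [vert, ev_pt _ _ h1, h2 hrq, Int.cast_zero, zero_div]
  · intro r
    obtain ⟨h1, -, h2⟩ := check_facets i r r
    rw [vert, ev_pt _ _ h1]
    have h1' : (0 : ℝ) < (V i r 4 : ℝ) := by exact_mod_cast h1
    have h2' : (0 : ℝ) < (idot (A i r) (V i r) : ℝ) := by exact_mod_cast h2
    exact div_pos h2' h1'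

/-- the seventeen simplices -/
noncomputable def fam (i : Fin 17) : Set (E 4) := convexHull ℝ (Set.range (vert i))

lemma abut_of_lt (i j : Fin 17) (hij : i < j) : Abut (fam i) (fam j) := by
  obtain ⟨h4, r, r', hneg, h0, h1, h2⟩ := check_pairs i j hij
  have h4' : (0 : ℝ) < (CP i j 4 : ℝ) := by exact_mod_cast h4
  refine abut_of_data (facets i) (facets j) (by norm_num) r r' ?_ ?_ (pt (CP i j)) ?_ ?_ ?_
  · funext k
    simp only [nor, Pi.neg_apply]
    rw [hneg]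
    push_cast
    ring
  · rw [hneg]
    push_cast
    ring
  · rw [ev_pt _ _ h4, h0, Int.cast_zero, zero_div]
  · intro q hq
    rw [ev_pt _ _ h4]
    have : (0 : ℝ) < (idot (A i q) (CP i j) : ℝ) := by exact_mod_cast h1 q hq
    exact div_pos this h4'
  · intro q hq
    rw [ev_pt _ _ h4]
    have : (0 : ℝ) < (idot (A j q) (CP i j) : ℝ) := by exact_mod_cast h2 q hq
    exact div_pos this h4'

lemma fam_neighborly : Neighborly fam := by
  refine ⟨fun i => ⟨vert i, (facets i).affineIndependent, rfl⟩, fun i j hij => ?_⟩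
  rcases lt_or_gt_of_ne hij with h | h
  · exact abut_of_lt i j h
  · exact (abut_of_lt j i h).symm

/-- There is a neighborly family of seventeen `4`-simplices in `ℝ^4`; hence it is not true that
for every `d ≥ 4` every neighborly family of `d`-simplices in `ℝ^d` has at most `2^d` members. -/
theorem result : (∃ S : Fin 17 → Set (E 4), Neighborly S) ∧
    ¬ ∀ d : ℕ, 4 ≤ d → ∀ (m : ℕ) (S : Fin m → Set (E d)), Neighborly S → m ≤ 2 ^ d := by
  refine ⟨⟨fam, fam_neighborly⟩, fun h => ?_⟩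
  have := h 4 le_rfl 17 fam fam_neighborly
  norm_num at this

end Pool.Agent.Results.MP_7876a1_co.SeventeenSimplices
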